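import Pool.Agent.Lib_MP_ea0635_lc.InfEq

/-!
# The infinitely equal forcing adds no half-Cohen real

Silver-type fusion carried out with names: `theorem forcesNoHalfCohen_infEq`.
-/

set_option autoImplicit false

namespace Pool.Agent.HalfCohen

open PFunName

variable {P : Type} [Preorder P] {B : BoundName P}

/-- `q ⊩ 'n is a free point of x which is protected at stage k'`: `n` is free, and it is either
`< k` or the least free point `≥ k`. -/
def Prot (k : ℕ) (x : PFunName P) (n : ℕ) (q : P) : Prop :=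
  x.Free n q ∧ ∀ n', k ≤ n' → n' < n → x.Dom n' q

/-- the fusion step -/
def Step (B : BoundName P) (p₀ : P) (C : ℕ → ℕ → PFunName P → P → Prop) (k : ℕ)
    (x x' : PFunName P) (p : P) : Prop :=
  leAt B x' x p ∧ (∀ n, ∀ q ≤ p, Prot k x n q → x'.Free n q) ∧
    ∀ q ≤ p, q ≤ p₀ → ∃ r ≤ q, ∃ M, ∀ m > M, ∀ s ≤ r, ∀ z, leAt B z x' s → ¬ C k m z s

/-- `x` with the values on `F` replaced by those of `v` -/
def setv (x : PFunName P) (F : Finset ℕ) (v : ℕ → ℕ) : PFunName P :=
  x.upd F (fun n => some (v n))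

theorem setv_mem (x : PFunName P) {F : Finset ℕ} (v : ℕ → ℕ) {n m : ℕ} {p : P}
    (h : n ∈ F) : (setv x F v).val n m p ↔ v n = m := by
  rw [setv, upd_val_of_mem _ _ h, Option.some_inj]

theorem setv_notMem (x : PFunName P) {F : Finset ℕ} (v : ℕ → ℕ) {n m : ℕ} {p : P}
    (h : n ∉ F) : (setv x F v).val n m p ↔ x.val n m p :=
  upd_val_of_notMem _ _ h

theorem setv_free_notMem (x : PFunName P) {F : Finset ℕ} (v : ℕ → ℕ) {n : ℕ} {p : P}
    (h : n ∉ F) : (setv x F v).Free n p ↔ x.Free n p :=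
  upd_free_of_notMem _ _ h

theorem setv_leAt {x y : PFunName P} {p : P} (h : leAt B x y p) (F : Finset ℕ)
    (v : ℕ → ℕ) : leAt B (setv x F v) (setv y F v) p := by
  refine ⟨fun n m q hq hy => ?_, fun n m q hq hx hf => ?_⟩
  · by_cases hn : n ∈ F
    · rw [setv_mem _ _ hn] at hy ⊢; exact hy
    · rw [setv_notMem _ _ hn] at hy ⊢; exact h.1 n m q hq hy
  · by_cases hn : n ∈ F
    · rw [setv_mem _ _ hn] at hx
      exact absurd ((setv_mem y v hn).2 hx) (hf m q le_rfl)
    · rw [setv_notMem _ _ hn] at hx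
      rw [setv_free_notMem _ _ hn] at hf
      exact h.2 n m q hq hx hf

/-- Processing all the finite functions in a list. -/
theorem process (p₀ : P) (C : ℕ → ℕ → PFunName P → P → Prop)
    (hC : ForcesRealName (infEq B) p₀ C) (k : ℕ) (x₀ : PFunName P) (F : Finset ℕ)
    (l : List (ℕ → ℕ)) (p : P) (hp : p ≤ p₀) (hF : ∀ n ∈ F, x₀.Free n p) :
    ∃ r ≤ p, ∃ x : PFunName P, leAt B x x₀ r ∧ (∀ n ∈ F, x.Free n r) ∧
      ∃ M, ∀ v ∈ l, ∀ m > M, ∀ s ≤ r, ∀ z, leAt B z (setv x F v) s → ¬ C k m z s := by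
  induction l with
  | nil => exact ⟨p, le_rfl, x₀, leAt_refl _ _, hF, 0, fun u hu => absurd hu (by simp)⟩
  | cons v l ih =>
    obtain ⟨r, hr, x, hx, hxF, M, hM⟩ := ih
    obtain ⟨r₁, hr₁, y, hy, m₁, hm₁⟩ := hC.total k (setv x F v) r (hr.trans hp)
    have hy' : leAt B y (setv x F v) r₁ := hy
    have hrp₀ : r₁ ≤ p₀ := hr₁.trans (hr.trans hp)
    let x₁ : PFunName P := y.upd F (fun _ => none)
    have hx₁x : leAt B x₁ x r₁ := by
      refine ⟨fun n m q hq h => ?_, fun n m q hq h hf => ?_⟩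
      · have hn : n ∉ F := fun hn => hxF n hn m q (hq.trans hr₁) h
        rw [upd_val_of_notMem _ _ hn]
        exact hy'.1 n m q hq ((setv_notMem x v hn).2 h)
      · by_cases hn : n ∈ F
        · rw [upd_val_of_mem _ _ hn] at h
          exact absurd h (by simp)
        · rw [upd_val_of_notMem _ _ hn] at h
          exact hy'.2 n m q hq h ((setv_free_notMem x v hn).2 hf)
    have hx₁F : ∀ n ∈ F, x₁.Free n r₁ := by
      intro n hn m s _ h
      rw [upd_val_of_mem _ _ hn] at h
      exact absurd h (by simp)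
    have hsame : ∀ n m, ∀ q ≤ r₁, (setv x₁ F v).val n m q ↔ y.val n m q := by
      intro n m q hq
      by_cases hn : n ∈ F
      · rw [setv_mem _ _ hn]
        constructor
        · intro h
          exact hy'.1 n m q hq ((setv_mem x v hn).2 h)
        · intro h
          exact y.func n (v n) m q (hy'.1 n (v n) q hq ((setv_mem x v hn).2 rfl)) h
      · rw [setv_notMem _ _ hn]
        exact upd_val_of_notMem y _ hn
    refine ⟨r₁, hr₁.trans hr, x₁, leAt_trans hx₁x (hx.mono hr₁), hx₁F, max M m₁, ?_⟩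
    intro w hw m hm s hs z hz hCz
    rcases List.mem_cons.mp hw with rfl | hw
    · have hzy : leAt B z y s := leAt_congr_right (fun n m q hq => hsame n m q (hq.trans hs)) hz
      have h1 : C k m₁ z s := hC.mono k m₁ y z s (hs.trans hrp₀) hzy
        ((hC.regular k m₁ y).1 _ _ hs hm₁)
      have h2 := hC.func k m m₁ z s (hs.trans hrp₀) hCz h1
      have : max M m₁ ≥ m₁ := le_max_right _ _
      omega
    · have hle : leAt B (setv x₁ F w) (setv x F w) s := setv_leAt (hx₁x.mono hs) F w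
      have hm' : m > M := lt_of_le_of_lt (le_max_left _ _) hm
      exact hM w hw m hm' s (hs.trans hr₁) z (leAt_trans hz hle) hCz

/-- deciding bounds on a finite set -/
theorem decide_bounds (B : BoundName P) (F : Finset ℕ) (p : P) :
    ∃ r ≤ p, ∃ a, ∀ n ∈ F, ∀ m, ∀ s ≤ r, B.D n m s → m ≤ a := by
  classical
  induction F using Finset.induction_on with
  | empty => exact ⟨p, le_rfl, 0, by simp⟩
  | insert n F _ ih =>
    obtain ⟨r, hr, a, h⟩ := ih
    obtain ⟨r', hr', a', h'⟩ := B.bdd n r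
    refine ⟨r', hr'.trans hr, max a a', ?_⟩
    intro n' hn' m s hs hD
    rcases Finset.mem_insert.mp hn' with rfl | hn'
    · exact (h' m s hs hD).trans (le_max_right _ _)
    · exact (h n' hn' m s (hs.trans hr') hD).trans (le_max_left _ _)

/-- all functions supported on `F` with values `≤ a`, as a list -/
theorem exists_list (F : Finset ℕ) (a : ℕ) :
    ∃ l : List (ℕ → ℕ), ∀ v : ℕ → ℕ, (∀ n ∈ F, v n ≤ a) →
      ∃ w ∈ l, ∀ n ∈ F, w n = v n := by
  classical
  induction F using Finset.induction_on with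
  | empty => exact ⟨[fun _ => 0], fun v _ => ⟨_, List.mem_singleton.mpr rfl, by simp⟩⟩
  | insert n F hn ih =>
    obtain ⟨l, hl⟩ := ih
    refine ⟨(List.range (a + 1)).flatMap (fun b => l.map (fun w => Function.update w n b)), ?_⟩
    intro v hv
    obtain ⟨w, hw, hwv⟩ := hl v (fun n' hn' => hv n' (Finset.mem_insert_of_mem hn'))
    refine ⟨Function.update w n (v n), ?_, ?_⟩
    · rw [List.mem_flatMap]
      refine ⟨v n, List.mem_range.mpr (Nat.lt_succ_of_le (hv n (Finset.mem_insert_self _ _))), ?_⟩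
      exact List.mem_map.mpr ⟨w, hw, rfl⟩
    · intro n' hn'
      by_cases h : n' = n
      · subst h; simp
      · rw [Function.update_of_ne h]
        exact hwv n' ((Finset.mem_insert.mp hn').resolve_left h)

theorem setv_congr (x : PFunName P) (F : Finset ℕ) {v w : ℕ → ℕ} (h : ∀ n ∈ F, w n = v n)
    (p : P) : (setv x F v).EqBelow (setv x F w) p := by
  intro n m q _
  by_cases hn : n ∈ F
  · rw [setv_mem _ _ hn, setv_mem _ _ hn, h n hn]
  · rw [setv_notMem _ _ hn, setv_notMem _ _ hn]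

/-- existence of the fusion step, locally -/
theorem exists_step_local (p₀ : P) (C : ℕ → ℕ → PFunName P → P → Prop)
    (hC : ForcesRealName (infEq B) p₀ C) (k : ℕ) (x : PFunName P) (p : P) :
    ∃ r ≤ p, ∃ x', Step B p₀ C k x x' r := by
  classical
  by_cases hcomp : ∃ q ≤ p, q ≤ p₀
  swap
  · refine ⟨p, le_rfl, x, leAt_refl _ _, fun n q _ h => h.1, fun q hq hq₀ => ?_⟩
    exact absurd ⟨q, hq, hq₀⟩ hcomp
  obtain ⟨p₁, hp₁, hp₁₀⟩ := hcomp
  -- a free point above `k`
  obtain ⟨p₂, hp₂, n₁, hn₁, hfree₁⟩ := x.coinf p₁ k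
  obtain ⟨p₃, hp₃, hdec⟩ := x.decide_lt n₁ p₂
  have hfree₁' : x.Free n₁ p₃ := fun m s hs => hfree₁ m s (hs.trans hp₃)
  have hex : ∃ n, k ≤ n ∧ x.Free n p₃ := ⟨n₁, hn₁, hfree₁'⟩
  set n₂ := Nat.find hex with hn₂
  have hn₂k : k ≤ n₂ := (Nat.find_spec hex).1
  have hn₂f : x.Free n₂ p₃ := (Nat.find_spec hex).2
  have hn₂min : ∀ n', k ≤ n' → n' < n₂ → ¬ x.Free n' p₃ :=
    fun n' h1 h2 h3 => Nat.find_min hex h2 ⟨h1, h3⟩
  have hn₂₁ : n₂ ≤ n₁ := Nat.find_min' hex ⟨hn₁, hfree₁'⟩
  let F : Finset ℕ := (Finset.range (n₂ + 1)).filter (fun n => x.Free n p₃)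
  have hF : ∀ n ∈ F, x.Free n p₃ := fun n hn => (Finset.mem_filter.mp hn).2
  -- protected points are in `F`
  have hprot : ∀ n, ∀ q ≤ p₃, Prot k x n q → n ∈ F := by
    intro n q hq hP
    have hle : n ≤ n₂ := by
      by_contra hlt
      push Not at hlt
      obtain ⟨s, hs, m, hm⟩ := hP.2 n₂ hn₂k hlt q le_rfl
      exact hn₂f m s (hs.trans hq) hm
    refine Finset.mem_filter.mpr ⟨Finset.mem_range.mpr (by omega), ?_⟩
    rcases Nat.lt_or_ge n n₂ with h | h
    · rcases hdec n (by omega) with h' | h'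
      · exfalso
        obtain ⟨s, hs, m, hm⟩ := h' q hq
        exact hP.1 m s hs hm
      · exact h'
    · have : n = n₂ := le_antisymm hle h
      rw [this]; exact hn₂f
  obtain ⟨p₄, hp₄, a, ha⟩ := decide_bounds B F p₃
  obtain ⟨l, hl⟩ := exists_list F a
  have hp₄₀ : p₄ ≤ p₀ := hp₄.trans (hp₃.trans (hp₂.trans hp₁₀))
  obtain ⟨r, hr, x', hx', hx'F, M, hM⟩ := process p₀ C hC k x F l p₄ hp₄₀
    (fun n hn => (hF n hn).mono hp₄)
  refine ⟨r, hr.trans (hp₄.trans (hp₃.trans (hp₂.trans hp₁))), x', hx', ?_, ?_⟩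
  · intro n q hq hP
    exact (hx'F n (hprot n q (hq.trans (hr.trans hp₄)) hP)).mono hq
  · intro q hq hq₀
    refine ⟨q, le_rfl, M, fun m hm s hs z hz hCz => ?_⟩
    have hsr : s ≤ r := hs.trans hq
    have hs₀ : s ≤ p₀ := hs.trans hq₀
    -- decide the values of `z` on `F`
    obtain ⟨t, ht, v, hv⟩ : ∃ t ≤ s, ∃ v : ℕ → ℕ, ∀ n ∈ F,
        (z.val n (v n) t) ∨ (z.Free n t ∧ v n = 0) := by
      have : ∀ G : Finset ℕ, ∃ t ≤ s, ∃ v : ℕ → ℕ, ∀ n ∈ G,
          (z.val n (v n) t) ∨ (z.Free n t ∧ v n = 0) := by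
        intro G
        induction G using Finset.induction_on with
        | empty => exact ⟨s, le_rfl, fun _ => 0, by simp⟩
        | insert n G hn ih =>
          obtain ⟨t, ht, v, hv⟩ := ih
          by_cases hz : ∃ t' ≤ t, ∃ m, z.val n m t'
          · obtain ⟨t', ht', m', hm'⟩ := hz
            refine ⟨t', ht'.trans ht, Function.update v n m', ?_⟩
            intro n' hn'
            by_cases h : n' = n
            · subst h
              left
              rw [Function.update_self]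
              exact hm'
            · rw [Function.update_of_ne h]
              rcases hv n' ((Finset.mem_insert.mp hn').resolve_left h) with h1 | h1
              · exact Or.inl (z.val_mono h1 ht')
              · exact Or.inr ⟨h1.1.mono ht', h1.2⟩
          · refine ⟨t, ht, Function.update v n 0, ?_⟩
            intro n' hn'
            by_cases h : n' = n
            · subst h
              right
              rw [Function.update_self]
              exact ⟨fun m' t' ht' h' => hz ⟨t', ht', m', h'⟩, rfl⟩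
            · rw [Function.update_of_ne h]
              exact hv n' ((Finset.mem_insert.mp hn').resolve_left h)
      exact this F
    have htr : t ≤ r := ht.trans hsr
    have hzx' : leAt B z x' t := hz.mono ht
    -- the values are bounded by `a`
    have hva : ∀ n ∈ F, v n ≤ a := by
      intro n hn
      rcases hv n hn with h | h
      · exact ha n hn (v n) t (htr.trans hr)
          (hzx'.2 n (v n) t le_rfl h ((hx'F n hn).mono htr))
      · rw [h.2]; exact Nat.zero_le _
    obtain ⟨w, hw, hwv⟩ := hl v hva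
    -- the common extension
    have hz'z : leAt B (setv z F v) z t := by
      refine ⟨fun n m q hq h => ?_, fun n m q hq h hf => ?_⟩
      · by_cases hn : n ∈ F
        · rw [setv_mem _ _ hn]
          rcases hv n hn with h1 | h1
          · exact z.func n (v n) m q (z.val_mono h1 hq) h
          · exact absurd h (h1.1 m q hq)
        · rw [setv_notMem _ _ hn]; exact h
      · by_cases hn : n ∈ F
        · rw [setv_mem _ _ hn] at h
          rcases hv n hn with h1 | h1
          · exact absurd (z.val_mono h1 hq) (hf (v n) q le_rfl)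
          · rw [← h, h1.2]; exact B.zero n q
        · rw [setv_notMem _ _ hn] at h
          exact absurd h (hf m q le_rfl)
    have hz'x : leAt B (setv z F v) (setv x' F w) t := by
      have h1 : leAt B (setv z F v) (setv x' F v) t := setv_leAt hzx' F v
      exact leAt_congr_right (setv_congr x' F hwv t) h1
    have hCz' : C k m (setv z F v) t :=
      hC.mono k m z _ t (ht.trans hs₀) hz'z ((hC.regular k m z).1 _ _ ht hCz)
    exact hM w hw m hm t htr _ hz'x hCz'

theorem Step.congr {p₀ : P} {C : ℕ → ℕ → PFunName P → P → Prop} {k : ℕ} {x x' x'' : PFunName P}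
    {p : P} (h : Step B p₀ C k x x' p) (he : x''.EqBelow x' p) :
    Step B p₀ C k x x'' p := by
  have he' : x'.EqBelow x'' p := fun n m q hq => (he n m q hq).symm
  refine ⟨leAt_congr_left he' h.1, fun n q hq hP m s hs hv => ?_, fun q hq hq₀ => ?_⟩
  · exact h.2.1 n q hq hP m s hs ((he n m s (hs.trans hq)).1 hv)
  · obtain ⟨r, hr, M, hM⟩ := h.2.2 q hq hq₀
    refine ⟨r, hr, M, fun m hm s hs z hz => hM m hm s hs z ?_⟩
    exact leAt_congr_right (fun n m t ht => he n m t (ht.trans (hs.trans (hr.trans hq)))) hz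

theorem Step.mono {p₀ : P} {C : ℕ → ℕ → PFunName P → P → Prop} {k : ℕ} {x x' : PFunName P}
    {p q : P} (h : Step B p₀ C k x x' p) (hq : q ≤ p) : Step B p₀ C k x x' q :=
  ⟨h.1.mono hq, fun n s hs => h.2.1 n s (hs.trans hq), fun s hs => h.2.2 s (hs.trans hq)⟩

theorem Step.of_dense {p₀ : P} {C : ℕ → ℕ → PFunName P → P → Prop} {k : ℕ}
    {x x' : PFunName P} (h : ∀ p, ∃ r ≤ p, Step B p₀ C k x x' r) (p : P) :
    Step B p₀ C k x x' p := by
  refine ⟨(leAt_regular x' x).2 p fun q _ => ?_, fun n q hq hP m s hs hv => ?_,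
    fun q hq hq₀ => ?_⟩
  · obtain ⟨r, hr, h'⟩ := h q
    exact ⟨r, hr, h'.1⟩
  · obtain ⟨r, hr, h'⟩ := h s
    have hP' : Prot k x n r := ⟨hP.1.mono (hr.trans hs),
      fun n' h1 h2 => (hP.2 n' h1 h2).mono (hr.trans hs)⟩
    exact h'.2.1 n r le_rfl hP' m r le_rfl (x'.val_mono hv hr)
  · obtain ⟨r, hr, h'⟩ := h q
    obtain ⟨r', hr', M, hM⟩ := h'.2.2 r le_rfl (hr.trans hq₀)
    exact ⟨r', hr'.trans hr, M, hM⟩

/-- existence of the fusion step, forced by every condition (maximum principle) -/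
theorem exists_step (p₀ : P) (C : ℕ → ℕ → PFunName P → P → Prop)
    (hC : ForcesRealName (infEq B) p₀ C) (k : ℕ) (x : PFunName P) :
    ∃ x', ∀ p, Step B p₀ C k x x' p := by
  obtain ⟨x', hx'⟩ := exists_mix (fun p x' => Step B p₀ C k x x' p)
    (exists_step_local p₀ C hC k x)
  refine ⟨x', Step.of_dense fun p => ?_⟩
  obtain ⟨r, hr, a, y, hra, hy, he⟩ := hx' p
  exact ⟨r, hr, (hy.congr he).mono hra⟩

section Limit

variable (p₀ : P) (C : ℕ → ℕ → PFunName P → P → Prop) (X : ℕ → PFunName P)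

theorem chain_le (hX : ∀ k p, Step B p₀ C k (X k) (X (k + 1)) p) {i j : ℕ} (hij : i ≤ j)
    (p : P) : leAt B (X j) (X i) p := by
  induction hij with
  | refl => exact leAt_refl _ _
  | step _ ih => exact leAt_trans (hX _ p).1 ih

/-- The limit of the fusion sequence. -/
theorem exists_limit (hX : ∀ k p, Step B p₀ C k (X k) (X (k + 1)) p) :
    ∃ y : PFunName P, ∀ k p, leAt B y (X k) p := by
  classical
  have hchain := fun {i j : ℕ} (hij : i ≤ j) (p : P) => chain_le (B := B) p₀ C X hX hij p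
  have hup : ∀ {i j : ℕ}, i ≤ j → ∀ {n m : ℕ} {p : P}, (X i).val n m p → (X j).val n m p :=
    fun hij n m p h => (hchain hij p).1 n m p le_rfl h
  let y : PFunName P :=
    { val := fun n m p => ∀ q ≤ p, ∃ r ≤ q, ∃ k, (X k).val n m r
      regular := fun n m => ⟨fun p q hq h s hs => h s (hs.trans hq), fun p h q hq => by
        obtain ⟨r, hr, h'⟩ := h q hq
        obtain ⟨r', hr', h''⟩ := h' r le_rfl
        exact ⟨r', hr'.trans hr, h''⟩⟩
      func := fun n m m' p h h' => by
        obtain ⟨r, hr, k, hv⟩ := h p le_rfl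
        obtain ⟨r', hr', k', hv'⟩ := h' r hr
        exact (X (max k k')).func n m m' r'
          (hup (le_max_left _ _) ((X k).val_mono hv hr')) (hup (le_max_right _ _) hv')
      coinf := fun p N => by
        obtain ⟨p₂, hp₂, n₁, hn₁, hfree₁⟩ := (X N).coinf p N
        obtain ⟨p₃, hp₃, hdec⟩ := (X N).decide_lt n₁ p₂
        have hfree₁' : (X N).Free n₁ p₃ := fun m s hs => hfree₁ m s (hs.trans hp₃)
        have hex : ∃ n, N ≤ n ∧ (X N).Free n p₃ := ⟨n₁, hn₁, hfree₁'⟩
        have hs := Nat.find_spec hex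
        have hmin : ∀ n', N ≤ n' → n' < Nat.find hex → (X N).Dom n' p₃ := by
          intro n' h1 h2
          have hlt : n' < n₁ := lt_of_lt_of_le h2 (Nat.find_min' hex ⟨hn₁, hfree₁'⟩)
          rcases hdec n' hlt with h | h
          · exact h
          · exact absurd ⟨h1, h⟩ (Nat.find_min hex h2)
        generalize Nat.find hex = n₂ at hs hmin
        have key : ∀ j, N ≤ j → (X j).Free n₂ p₃ := by
          intro j hj
          induction hj with
          | refl => exact hs.2
          | @step j hj ih =>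
            refine (hX j p₃).2.1 n₂ p₃ le_rfl ⟨ih, fun n' h1 h2 => ?_⟩
            exact (hchain hj p₃).dom le_rfl (hmin n' (le_trans hj h1) h2)
        refine ⟨p₃, hp₃.trans hp₂, n₂, hs.1, fun m s hs' hv => ?_⟩
        obtain ⟨t, ht, k, hk⟩ := hv s le_rfl
        have h1 : (X (max N k)).val n₂ m t := hup (le_max_right _ _) hk
        exact key (max N k) (le_max_left _ _) m t (ht.trans hs') h1 }
  refine ⟨y, fun k p => ⟨fun n m q _ h s hs => ⟨s, le_rfl, k, (X k).val_mono h hs⟩,
    fun n m q _ h hf => ?_⟩⟩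
  refine (B.regular n m).2 q fun s hs => ?_
  obtain ⟨r, hr, j, hj⟩ := h s hs
  have hkj : k ≤ j := by
    by_contra hlt
    push Not at hlt
    exact hf m r (hr.trans hs) (hup hlt.le hj)
  exact ⟨r, hr, (hchain hkj r).2 n m r le_rfl hj (hf.mono (hr.trans hs))⟩

end Limit

/-- It is forced that the infinitely equal forcing adds no half-Cohen real. -/
theorem forcesNoHalfCohen_infEq (B : BoundName P) : ForcesNoHalfCohen (infEq B) := by
  classical
  intro p₀ C hC x₀ q hq
  change PFunName P at x₀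
  choose nxt hnxt using fun k x => exists_step (B := B) p₀ C hC k x
  let X : ℕ → PFunName P := fun k => Nat.rec x₀ (fun k x => nxt k x) k
  have hX : ∀ k p, Step B p₀ C k (X k) (X (k + 1)) p := fun k p => hnxt k (X k) p
  obtain ⟨y, hy⟩ := exists_limit (B := B) p₀ C X hX
  -- `s ⊩ (y ⊩ c(k) ≠ m)`
  let Bad : ℕ → ℕ → P → Prop := fun k m s =>
    ∀ t ≤ s, t ≤ p₀ → ∀ z, leAt B z y t → ¬ C k m z t
  have hBad : ∀ k m s t, t ≤ s → Bad k m s → Bad k m t :=
    fun k m s t ht h u hu => h u (hu.trans ht)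
  have hex : ∀ k s, ∃ t ≤ s, ∃ m, Bad k m t := by
    intro k s
    by_cases hcomp : ∃ t ≤ s, t ≤ p₀
    · obtain ⟨t, ht, ht₀⟩ := hcomp
      obtain ⟨r, hr, M, hM⟩ := (hX k t).2.2 t le_rfl ht₀
      refine ⟨r, hr.trans ht, M + 1, fun u hu _ z hz => ?_⟩
      exact hM (M + 1) (Nat.lt_succ_self M) u hu z (leAt_trans hz (hy (k + 1) u))
    · exact ⟨s, le_rfl, 0, fun t ht ht₀ => absurd ⟨t, ht, ht₀⟩ hcomp⟩
  let f : RealName P :=
    { val := fun k m s => Bad k m s ∧ ∀ m' < m, ∀ t ≤ s, ¬ Bad k m' t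
      mono := fun k m s t ht h => ⟨hBad k m s t ht h.1, fun m' hm' u hu => h.2 m' hm' u (hu.trans ht)⟩
      func := fun k m m' s h h' => by
        rcases lt_trichotomy m m' with hlt | heq | hlt
        · exact absurd h.1 (h'.2 m hlt s le_rfl)
        · exact heq
        · exact absurd h'.1 (h.2 m' hlt s le_rfl)
      total := fun k s => by
        have h' : ∃ m, ∃ t ≤ s, Bad k m t := by
          obtain ⟨t, ht, m, hm⟩ := hex k s
          exact ⟨m, t, ht, hm⟩
        obtain ⟨t, ht, hbt⟩ := Nat.find_spec h'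
        refine ⟨t, ht, Nat.find h', hbt, fun m' hm' u hu hb => ?_⟩
        exact Nat.find_min h' hm' ⟨u, hu.trans ht, hb⟩ }
  refine ⟨q, le_rfl, y, hy 0 q, f, 0, fun n _ m s hs hf z hz => ?_⟩
  exact hf.1 s le_rfl (hs.trans hq) z hz

end Pool.Agent.HalfCohen
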