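import Mathlib

/-!
# Forcing notions, names, half-Cohen reals and two-step iterations

The ground model `V` is Lean's type theory; a forcing notion is a partial order `P`.  We use the
standard combinatorial presentation of names and of the forcing relation.

* An assertion about the generic extension is represented by the set of conditions forcing it,
  a predicate `φ : P → Prop` which is regular: inherited by stronger conditions, and true at `p`
  as soon as it is true densely below `p` (`Regular`).
* A name for an element `c` of `ω^ω` is given by the open sets `{p | p decides c(n) = m}`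
  (`RealName`).
* A name for a forcing notion is a set `X` of names for its conditions together with the
  relation `p ⊩ x ≤ y` (`PosetName`).
* The two-step iteration is the set of pairs `(p, x)` with `(p, x) ≤ (q, y)` iff
  `p ≤ q` and `p ⊩ x ≤ y` (`Iter`).
-/

set_option autoImplicit false

namespace Pool.Agent.HalfCohen

/-- A set of conditions is *regular* if it is closed under strengthening and contains every
condition below which it is dense.  Regular sets of conditions are exactly the sets of the form
`{p | p ⊩ φ}`. -/
def Regular {P : Type} [Preorder P] (φ : P → Prop) : Prop :=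
  (∀ p q, q ≤ p → φ p → φ q) ∧ ∀ p, (∀ q ≤ p, ∃ r ≤ q, φ r) → φ p

/-- A `P`-name for an element `c` of `ω^ω`: `val n m p` says that `p` decides `c(n) = m`.
These sets of conditions are open, different values are incompatible, and for every `n` it is
dense to decide `c(n)`.  (So `p ⊩ c(n) = m` iff `val n m` is dense below `p`, and
`p ⊩ c(n) ≠ m` iff no `q ≤ p` satisfies `val n m q`.) -/
structure RealName (P : Type) [Preorder P] where
  /-- `val n m p` : the condition `p` decides `c(n) = m` -/
  val : ℕ → ℕ → P → Prop
  mono : ∀ n m p q, q ≤ p → val n m p → val n m q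
  func : ∀ n m m' p, val n m p → val n m' p → m = m'
  total : ∀ n p, ∃ q ≤ p, ∃ m, val n m q

/-- `p ⊩ 'c is a half-Cohen real over the ground model'`: for every ground model function `f`
and every `N`, `p` forces that `c(n) = f(n)` for some `n ≥ N`. -/
def ForcesHalfCohen {P : Type} [Preorder P] (p : P) (c : RealName P) : Prop :=
  ∀ f : ℕ → ℕ, ∀ N : ℕ, ∀ q ≤ p, ∃ r ≤ q, ∃ n ≥ N, c.val n (f n) r

/-- Some generic extension by `P` contains a half-Cohen real over the ground model: some
condition forces some name to be a half-Cohen real. -/
def AddsHalfCohen (P : Type) [Preorder P] : Prop :=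
  ∃ (c : RealName P) (p : P), ForcesHalfCohen p c

/-- A `P`-name for a forcing notion (a preordered set; identifying `x` and `y` when `x ≤ y ≤ x`
it is a partially ordered set): a nonempty set `X` of names for all its conditions, and
`le x y p` says `p ⊩ x ≤ y`. -/
structure PosetName (P : Type) [Preorder P] where
  /-- names for the conditions -/
  X : Type
  /-- `le x y p` : `p ⊩ x ≤ y` -/
  le : X → X → P → Prop
  nonempty : Nonempty X
  regular : ∀ x y, Regular (le x y)
  refl : ∀ x p, le x x p
  trans : ∀ x y z p, le x y p → le y z p → le x z p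

/-- The usual two-step iteration `P ∗ Q`. -/
def Iter {P : Type} [Preorder P] (Q : PosetName P) : Type := P × Q.X

instance {P : Type} [Preorder P] (Q : PosetName P) : Preorder (Iter Q) where
  le a b := a.1 ≤ b.1 ∧ Q.le a.2 b.2 a.1
  le_refl a := ⟨le_refl a.1, Q.refl a.2 a.1⟩
  le_trans a b c hab hbc :=
    ⟨hab.1.trans hbc.1, Q.trans _ _ _ _ hab.2 ((Q.regular _ _).1 _ _ hab.1 hbc.2)⟩

/-- `p ⊩ 'C is a Q-name for an element of ω^ω'`, where `C n m x q` is read
`q ⊩ 'the condition x of Q decides c(n) = m'`.  (`C` is a `P`-name for a subset of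
`ω × ω × X`; the four last clauses say that the clauses in the definition of `RealName`
are forced by `p`.) -/
structure ForcesRealName {P : Type} [Preorder P] (Q : PosetName P) (p : P)
    (C : ℕ → ℕ → Q.X → P → Prop) : Prop where
  regular : ∀ n m x, Regular (C n m x)
  mono : ∀ n m x y, ∀ q ≤ p, Q.le y x q → C n m x q → C n m y q
  func : ∀ n m m' x, ∀ q ≤ p, C n m x q → C n m' x q → m = m'
  total : ∀ n x, ∀ q ≤ p, ∃ r ≤ q, ∃ y, Q.le y x r ∧ ∃ m, C n m y r

/-- Every condition of `P` forces: 'the forcing notion `Q` adds no half-Cohen real (over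
`V[G]`)', i.e. 'for every `Q`-name `c` for an element of `ω^ω` and every `x ∈ Q` there are
`y ≤ x`, a function `f ∈ ω^ω` and `N` such that for all `n ≥ N` no `z ≤ y` decides
`c(n) = f(n)`'. -/
def ForcesNoHalfCohen {P : Type} [Preorder P] (Q : PosetName P) : Prop :=
  ∀ (p : P) (C : ℕ → ℕ → Q.X → P → Prop), ForcesRealName Q p C →
    ∀ x : Q.X, ∀ q ≤ p, ∃ r ≤ q, ∃ y : Q.X, Q.le y x r ∧
      ∃ (f : RealName P) (N : ℕ), ∀ n ≥ N, ∀ m : ℕ, ∀ s ≤ r, f.val n m s →
        ∀ z : Q.X, Q.le z y s → ¬ C n m z s

end Pool.Agent.HalfCohen
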