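import Pool.Agent.Lib_MP_ea0635_lc.Defs

/-!
# The infinitely equal forcing in a generic extension

For a forcing notion `P` and a `P`-name `D` for a relation with finite sections, `infEq D` is
the `P`-name for the forcing notion of all partial functions `x : ω ⇀ ω` with coinfinite domain,
where `x ≤ y` iff `x` extends `y` and the new values are allowed by `D`.  We prove that it is
forced to add no half-Cohen real (it is forced to be `ω^ω`-bounding).
-/

set_option autoImplicit false

namespace Pool.Agent.HalfCohen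

variable {P : Type} [Preorder P]

/-- A `P`-name for a relation with finite sections containing `0`. -/
structure BoundName (P : Type) [Preorder P] where
  D : ℕ → ℕ → P → Prop
  regular : ∀ n m, Regular (D n m)
  zero : ∀ n p, D n 0 p
  bdd : ∀ n p, ∃ r ≤ p, ∃ a, ∀ m, ∀ s ≤ r, D n m s → m ≤ a

/-- A `P`-name for a partial function `ω ⇀ ω` with coinfinite domain: `val n m p` says
`p ⊩ x(n) = m`. -/
structure PFunName (P : Type) [Preorder P] where
  val : ℕ → ℕ → P → Prop
  regular : ∀ n m, Regular (val n m)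
  func : ∀ n m m' p, val n m p → val n m' p → m = m'
  coinf : ∀ p N, ∃ r ≤ p, ∃ n ≥ N, ∀ m, ∀ s ≤ r, ¬ val n m s

instance : Nonempty (PFunName P) :=
  ⟨{ val := fun _ _ _ => False
     regular := fun _ _ => ⟨fun _ _ _ h => h, fun p h => (h p le_rfl).choose_spec.2⟩
     func := fun _ _ _ _ h => h.elim
     coinf := fun p N => ⟨p, le_rfl, N, le_rfl, fun _ _ _ h => h⟩ }⟩

namespace PFunName

/-- `p ⊩ n ∉ dom x` -/
def Free (x : PFunName P) (n : ℕ) (p : P) : Prop := ∀ m, ∀ s ≤ p, ¬ x.val n m s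

/-- `p ⊩ n ∈ dom x` -/
def Dom (x : PFunName P) (n : ℕ) (p : P) : Prop := ∀ q ≤ p, ∃ r ≤ q, ∃ m, x.val n m r

theorem Free.mono {x : PFunName P} {n : ℕ} {p q : P} (h : x.Free n p) (hq : q ≤ p) :
    x.Free n q := fun m s hs => h m s (hs.trans hq)

theorem Dom.mono {x : PFunName P} {n : ℕ} {p q : P} (h : x.Dom n p) (hq : q ≤ p) :
    x.Dom n q := fun s hs => h s (hs.trans hq)

theorem val_mono (x : PFunName P) {n m : ℕ} {p q : P} (h : x.val n m p) (hq : q ≤ p) :
    x.val n m q := (x.regular n m).1 p q hq h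

/-- it is dense to decide whether `n ∈ dom x` -/
theorem decide_one (x : PFunName P) (n : ℕ) (p : P) :
    ∃ r ≤ p, x.Dom n r ∨ x.Free n r := by
  by_cases h : ∃ s ≤ p, ∃ m, x.val n m s
  · obtain ⟨s, hs, m, hm⟩ := h
    exact ⟨s, hs, Or.inl fun q hq => ⟨q, le_rfl, m, x.val_mono hm hq⟩⟩
  · refine ⟨p, le_rfl, Or.inr fun m s hs hm => h ⟨s, hs, m, hm⟩⟩

theorem decide_lt (x : PFunName P) (L : ℕ) (p : P) :
    ∃ r ≤ p, ∀ n < L, x.Dom n r ∨ x.Free n r := by
  induction L with
  | zero => exact ⟨p, le_rfl, fun n hn => absurd hn (Nat.not_lt_zero n)⟩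
  | succ L ih =>
    obtain ⟨r, hr, h⟩ := ih
    obtain ⟨s, hs, h'⟩ := x.decide_one L r
    refine ⟨s, hs.trans hr, fun n hn => ?_⟩
    rcases Nat.lt_succ_iff_lt_or_eq.mp hn with h1 | h1
    · exact (h n h1).imp (fun h => h.mono hs) (fun h => h.mono hs)
    · subst h1; exact h'

/-- The name for `x` modified on the finite set `F`: the values there are given by `u`
(`none` means undefined). -/
def upd (x : PFunName P) (F : Finset ℕ) (u : ℕ → Option ℕ) : PFunName P where
  val n m p := if n ∈ F then u n = some m else x.val n m p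
  regular n m := by
    by_cases h : n ∈ F
    · simp only [h, if_true]
      exact ⟨fun _ _ _ h => h, fun p h => (h p le_rfl).choose_spec.2⟩
    · simp only [h, if_false]
      exact x.regular n m
  func n m m' p h1 h2 := by
    by_cases h : n ∈ F
    · simp only [h, if_true] at h1 h2
      rw [h1] at h2
      exact Option.some.inj h2
    · simp only [h, if_false] at h1 h2
      exact x.func n m m' p h1 h2
  coinf p N := by
    obtain ⟨r, hr, n, hn, h⟩ := x.coinf p (max N (F.sup id + 1))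
    have hnF : n ∉ F := by
      intro hF
      have h1 : n ≤ F.sup id := Finset.le_sup (f := id) hF
      have h2 : F.sup id + 1 ≤ n := (le_max_right _ _).trans hn
      omega
    refine ⟨r, hr, n, (le_max_left _ _).trans hn, ?_⟩
    simpa only [hnF, if_false] using h

theorem upd_val_of_mem (x : PFunName P) {F : Finset ℕ} (u : ℕ → Option ℕ) {n m : ℕ} {p : P}
    (h : n ∈ F) : (x.upd F u).val n m p ↔ u n = some m := by
  simp [upd, h]

theorem upd_val_of_notMem (x : PFunName P) {F : Finset ℕ} (u : ℕ → Option ℕ) {n m : ℕ} {p : P}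
    (h : n ∉ F) : (x.upd F u).val n m p ↔ x.val n m p := by
  simp [upd, h]

theorem upd_free_of_notMem (x : PFunName P) {F : Finset ℕ} (u : ℕ → Option ℕ) {n : ℕ} {p : P}
    (h : n ∉ F) : (x.upd F u).Free n p ↔ x.Free n p := by
  simp [Free, upd, h]

/-- the two names are forced to be equal by `p` -/
def EqBelow (x y : PFunName P) (p : P) : Prop := ∀ n m, ∀ q ≤ p, x.val n m q ↔ y.val n m q

end PFunName

open PFunName

variable (B : BoundName P)

/-- `p ⊩ x ≤ y` -/
def leAt (x y : PFunName P) (p : P) : Prop :=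
  (∀ n m, ∀ q ≤ p, y.val n m q → x.val n m q) ∧
    ∀ n m, ∀ q ≤ p, x.val n m q → y.Free n q → B.D n m q

variable {B}

theorem leAt.mono {x y : PFunName P} {p q : P} (h : leAt B x y p) (hq : q ≤ p) :
    leAt B x y q :=
  ⟨fun n m r hr => h.1 n m r (hr.trans hq), fun n m r hr => h.2 n m r (hr.trans hq)⟩

theorem leAt_refl (x : PFunName P) (p : P) : leAt B x x p :=
  ⟨fun _ _ _ _ h => h, fun _ m q _ h h' => absurd h (h' m q le_rfl)⟩

theorem leAt_regular (x y : PFunName P) : Regular (leAt B x y) := by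
  refine ⟨fun p q hq h => h.mono hq, fun p h => ⟨fun n m q hq hy => ?_, fun n m q hq hx hf => ?_⟩⟩
  · refine (x.regular n m).2 q fun s hs => ?_
    obtain ⟨r, hr, h'⟩ := h s (hs.trans hq)
    exact ⟨r, hr, h'.1 n m r le_rfl (y.val_mono hy (hr.trans hs))⟩
  · refine (B.regular n m).2 q fun s hs => ?_
    obtain ⟨r, hr, h'⟩ := h s (hs.trans hq)
    exact ⟨r, hr, h'.2 n m r le_rfl (x.val_mono hx (hr.trans hs)) (hf.mono (hr.trans hs))⟩

theorem leAt_trans {x y z : PFunName P} {p : P} (h1 : leAt B x y p) (h2 : leAt B y z p) :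
    leAt B x z p := by
  refine ⟨fun n m q hq h => h1.1 n m q hq (h2.1 n m q hq h), fun n m q hq hx hf => ?_⟩
  refine (B.regular n m).2 q fun s hs => ?_
  by_cases hy : ∃ r ≤ s, ∃ m', y.val n m' r
  · obtain ⟨r, hr, m', hm'⟩ := hy
    have hrp : r ≤ p := hr.trans (hs.trans hq)
    have hx' := h1.1 n m' r hrp hm'
    have : m' = m := x.func n m' m r hx' (x.val_mono hx (hr.trans hs))
    subst this
    exact ⟨r, hr, h2.2 n m' r hrp hm' (hf.mono (hr.trans hs))⟩
  · refine ⟨s, le_rfl, h1.2 n m s (hs.trans hq) (x.val_mono hx hs) ?_⟩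
    intro m' r hr h'
    exact hy ⟨r, hr, m', h'⟩

theorem leAt.free {x y : PFunName P} {p q : P} {n : ℕ} (h : leAt B x y p) (hq : q ≤ p)
    (hf : x.Free n q) : y.Free n q :=
  fun m s hs hy => hf m s hs (h.1 n m s (hs.trans hq) hy)

theorem leAt.dom {x y : PFunName P} {p q : P} {n : ℕ} (h : leAt B x y p) (hq : q ≤ p)
    (hf : y.Dom n q) : x.Dom n q := fun s hs => by
  obtain ⟨r, hr, m, hm⟩ := hf s hs
  exact ⟨r, hr, m, h.1 n m r (hr.trans (hs.trans hq)) hm⟩

theorem leAt_congr_left {x x' y : PFunName P} {p : P} (h : x.EqBelow x' p)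
    (hl : leAt B x y p) : leAt B x' y p :=
  ⟨fun n m q hq hy => (h n m q hq).1 (hl.1 n m q hq hy),
    fun n m q hq hx hf => hl.2 n m q hq ((h n m q hq).2 hx) hf⟩

theorem leAt_congr_right {x y y' : PFunName P} {p : P} (h : y.EqBelow y' p)
    (hl : leAt B x y p) : leAt B x y' p :=
  ⟨fun n m q hq hy => hl.1 n m q hq ((h n m q hq).2 hy),
    fun n m q hq hx hf => hl.2 n m q hq hx
      (fun m' s hs hy => hf m' s hs ((h n m' s (hs.trans hq)).1 hy))⟩

/-- Mixing of names. -/
theorem exists_mix (E : P → PFunName P → Prop) (hE : ∀ p, ∃ r ≤ p, ∃ x, E r x) :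
    ∃ x : PFunName P, ∀ p, ∃ r ≤ p, ∃ a, ∃ y, r ≤ a ∧ E a y ∧ x.EqBelow y a := by
  classical
  -- a maximal antichain
  let S : Set (Set P) := {A | (∀ a ∈ A, ∃ x, E a x) ∧
    ∀ a ∈ A, ∀ b ∈ A, (∃ r, r ≤ a ∧ r ≤ b) → a = b}
  obtain ⟨A, hA⟩ : ∃ A, Maximal (· ∈ S) A := by
    refine zorn_subset S ?_
    intro c hcS hc
    refine ⟨⋃₀ c, ⟨?_, ?_⟩, fun s hs => Set.subset_sUnion_of_mem hs⟩
    · rintro a ⟨s, hs, ha⟩
      exact (hcS hs).1 a ha
    · rintro a ⟨s, hs, ha⟩ b ⟨t, ht, hb⟩ hab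
      rcases hc.total hs ht with h | h
      · exact (hcS ht).2 a (h ha) b hb hab
      · exact (hcS hs).2 a ha b (h hb) hab
  have hAS : A ∈ S := hA.prop
  have hpre : ∀ p, ∃ a ∈ A, ∃ r, r ≤ p ∧ r ≤ a := by
    intro p
    by_contra hcon
    push Not at hcon
    obtain ⟨r, hr, x, hx⟩ := hE p
    have hmem : insert r A ∈ S := by
      refine ⟨?_, ?_⟩
      · rintro a (rfl | ha)
        · exact ⟨x, hx⟩
        · exact hAS.1 a ha
      · rintro a (rfl | ha) b (rfl | hb) ⟨s, hs1, hs2⟩
        · rfl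
        · exact absurd hs2 (hcon b hb s (hs1.trans hr))
        · exact absurd hs1 (hcon a ha s (hs2.trans hr))
        · exact hAS.2 a ha b hb ⟨s, hs1, hs2⟩
    have hsub : insert r A ⊆ A := hA.le_of_ge hmem (Set.subset_insert r A)
    have hrA : r ∈ A := hsub (Set.mem_insert r A)
    exact hcon r hrA r hr le_rfl
  choose! X hX using hAS.1
  have hinc : ∀ a ∈ A, ∀ b ∈ A, ∀ r, r ≤ a → r ≤ b → a = b :=
    fun a ha b hb r h1 h2 => hAS.2 a ha b hb ⟨r, h1, h2⟩
  let x : PFunName P :=
    { val := fun n m p => ∀ q ≤ p, ∃ r ≤ q, ∃ a ∈ A, r ≤ a ∧ (X a).val n m r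
      regular := fun n m => ⟨fun p q hq h s hs => h s (hs.trans hq), fun p h q hq => by
        obtain ⟨r, hr, h'⟩ := h q hq
        obtain ⟨r', hr', h''⟩ := h' r le_rfl
        exact ⟨r', hr'.trans hr, h''⟩⟩
      func := fun n m m' p h h' => by
        obtain ⟨r, hr, a, ha, hra, hv⟩ := h p le_rfl
        obtain ⟨r', hr', a', ha', hra', hv'⟩ := h' r hr
        have : a = a' := hinc a ha a' ha' r' (hr'.trans hra) hra'
        subst this
        exact (X a).func n m m' r' ((X a).val_mono hv hr') hv'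
      coinf := fun p N => by
        obtain ⟨a, ha, r, hrp, hra⟩ := hpre p
        obtain ⟨r', hr', n, hn, hf⟩ := (X a).coinf r N
        refine ⟨r', hr'.trans hrp, n, hn, fun m s hs hv => ?_⟩
        obtain ⟨t, ht, a', ha', hta', hv'⟩ := hv s le_rfl
        have : a = a' := hinc a ha a' ha' t (ht.trans (hs.trans (hr'.trans hra))) hta'
        subst this
        exact hf m t (ht.trans hs) hv' }
  refine ⟨x, fun p => ?_⟩
  obtain ⟨a, ha, r, hrp, hra⟩ := hpre p
  refine ⟨r, hrp, a, X a, hra, hX a ha, fun n m q hq => ⟨fun h => ?_, fun h => ?_⟩⟩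
  · refine ((X a).regular n m).2 q fun s hs => ?_
    obtain ⟨t, ht, a', ha', hta', hv'⟩ := h s hs
    have : a = a' := hinc a ha a' ha' t (ht.trans (hs.trans hq)) hta'
    subst this
    exact ⟨t, ht, hv'⟩
  · intro s hs
    exact ⟨s, le_rfl, a, ha, hs.trans hq, (X a).val_mono h hs⟩

/-- The `P`-name for the infinitely equal forcing with bound `B`. -/
def infEq (B : BoundName P) : PosetName P where
  X := PFunName P
  le := leAt B
  nonempty := inferInstance
  regular := leAt_regular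
  refl := leAt_refl
  trans := fun _ _ _ _ h1 h2 => leAt_trans h1 h2

end Pool.Agent.HalfCohen
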