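import Pool.Agent.Lib_MP_ea0635_lc.InfEq

/-!
# The iteration adds a half-Cohen real

If `P` adds a dominating real `d`, then `P` followed by the infinitely equal forcing below `d`
adds a half-Cohen real over the ground model.
-/

set_option autoImplicit false

namespace Pool.Agent.HalfCohen

open PFunName

variable {P : Type} [Preorder P] {B : BoundName P}

/-- set the value at one free point -/
theorem exists_set (x : PFunName P) {n v : ℕ} {p : P} (hf : x.Free n p) (hD : B.D n v p) :
    ∃ z : PFunName P, leAt B z x p ∧ ∀ q, z.val n v q := by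
  refine ⟨x.upd {n} (fun _ => some v), ⟨fun n' m q hq h => ?_, fun n' m q hq h hf' => ?_⟩,
    fun q => ?_⟩
  · have hne : n' ∉ ({n} : Finset ℕ) := by
      rw [Finset.mem_singleton]
      rintro rfl
      exact hf m q hq h
    rw [upd_val_of_notMem _ _ hne]
    exact h
  · by_cases hn : n' ∈ ({n} : Finset ℕ)
    · rw [upd_val_of_mem _ _ hn] at h
      rw [Finset.mem_singleton] at hn
      subst hn
      have hv : v = m := by simpa using h
      subst hv
      exact (B.regular n' v).1 p q hq hD
    · rw [upd_val_of_notMem _ _ hn] at h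
      exact absurd h (hf' m q le_rfl)
  · rw [upd_val_of_mem _ _ (Finset.mem_singleton_self n)]

/-- The name for the generic function of the infinitely equal forcing. -/
def genericReal (B : BoundName P) : RealName (Iter (infEq B)) where
  val n m a := PFunName.val a.2 n m a.1
  mono n m a b hab h := by
    have h2 : leAt B b.2 a.2 b.1 := hab.2
    exact h2.1 n m b.1 le_rfl (PFunName.val_mono a.2 h hab.1)
  func n m m' a h h' := PFunName.func a.2 n m m' a.1 h h'
  total n a := by
    obtain ⟨p, x⟩ := a
    change PFunName P at x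
    by_cases h : ∃ r ≤ p, ∃ m, x.val n m r
    · obtain ⟨r, hr, m, hm⟩ := h
      exact ⟨(r, x), ⟨hr, leAt_refl x r⟩, m, hm⟩
    · have hf : x.Free n p := fun m s hs hm => h ⟨s, hs, m, hm⟩
      obtain ⟨z, hz, hv⟩ := exists_set (B := B) x hf (B.zero n p)
      exact ⟨(p, z), ⟨le_rfl, hz⟩, 0, hv p⟩

/-- If the bound is dominating, the generic function of the infinitely equal forcing is a
half-Cohen real over the ground model. -/
theorem forcesHalfCohen_generic (B : BoundName P)
    (hdom : ∀ (y : ℕ → ℕ) (p : P), ∃ r ≤ p, ∃ N, ∀ n ≥ N, B.D n (y n) r)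
    (a : Iter (infEq B)) : ForcesHalfCohen a (genericReal B) := by
  rintro f N ⟨p, x⟩ -
  change PFunName P at x
  obtain ⟨r, hr, N', hN'⟩ := hdom f p
  obtain ⟨r', hr', n, hn, hf⟩ := x.coinf r (max N N')
  obtain ⟨z, hz, hv⟩ := exists_set (B := B) x (v := f n) hf
    ((B.regular n (f n)).1 r r' hr' (hN' n ((le_max_right _ _).trans hn)))
  exact ⟨(r', z), ⟨hr'.trans hr, hz⟩, n, (le_max_left _ _).trans hn, hv r'⟩

theorem addsHalfCohen_iter [Nonempty P] (B : BoundName P)
    (hdom : ∀ (y : ℕ → ℕ) (p : P), ∃ r ≤ p, ∃ N, ∀ n ≥ N, B.D n (y n) r) :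
    AddsHalfCohen (Iter (infEq B)) := by
  obtain ⟨p⟩ := ‹Nonempty P›
  obtain ⟨x⟩ := (infEq B).nonempty
  exact ⟨genericReal B, (p, x), forcesHalfCohen_generic B hdom _⟩

end Pool.Agent.HalfCohen
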