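import Pool.Agent.Lib_MP_ea0635_lc.InfEq

/-!
# Mathias forcing

Mathias forcing has pure decision; it adds no half-Cohen real and it adds a dominating real.
-/

set_option autoImplicit false

namespace Pool.Agent.HalfCohen

/-- Mathias forcing: pairs of a finite set `stem` and an infinite set `res` of natural numbers
above it. -/
@[ext] structure Mathias where
  stem : Finset ℕ
  res : Set ℕ
  inf : res.Infinite
  sep : ∀ a ∈ stem, ∀ b ∈ res, a < b

namespace Mathias

instance : PartialOrder Mathias where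
  le p q := q.stem ⊆ p.stem ∧ p.res ⊆ q.res ∧ ∀ a ∈ p.stem, a ∈ q.stem ∨ a ∈ q.res
  le_refl p := ⟨Finset.Subset.refl _, subset_rfl, fun _ ha => Or.inl ha⟩
  le_trans p q r h1 h2 := ⟨h2.1.trans h1.1, h1.2.1.trans h2.2.1, fun a ha => by
    rcases h1.2.2 a ha with h | h
    · exact h2.2.2 a h
    · exact Or.inr (h2.2.1 h)⟩
  le_antisymm p q h1 h2 := by
    ext1
    · exact Finset.Subset.antisymm h2.1 h1.1
    · exact Set.Subset.antisymm h1.2.1 h2.2.1

theorem le_def {p q : Mathias} :
    p ≤ q ↔ q.stem ⊆ p.stem ∧ p.res ⊆ q.res ∧ ∀ a ∈ p.stem, a ∈ q.stem ∨ a ∈ q.res := Iff.rfl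

/-- `r` extends the (pre)condition `(s, A)` -/
def Ext (s : Finset ℕ) (A : Set ℕ) (r : Mathias) : Prop :=
  s ⊆ r.stem ∧ (∀ a ∈ r.stem, a ∈ s ∨ (a ∈ A ∧ ∀ b ∈ s, b < a)) ∧ r.res ⊆ A

theorem Ext.le {s : Finset ℕ} {A : Set ℕ} {r r' : Mathias} (h : Ext s A r) (hr : r' ≤ r) :
    Ext s A r' := by
  refine ⟨h.1.trans hr.1, fun a ha => ?_, hr.2.1.trans h.2.2⟩
  rcases hr.2.2 a ha with h' | h'
  · exact h.2.1 a h'
  · exact Or.inr ⟨h.2.2 h', fun b hb => r.sep b (h.1 hb) a h'⟩

theorem Ext.local {s : Finset ℕ} {A A' : Set ℕ} {r : Mathias} (h : Ext s A r)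
    (hA : ∀ a ∈ A, (∀ b ∈ s, b < a) → a ∈ A') : Ext s A' r := by
  refine ⟨h.1, fun a ha => ?_, fun a ha => ?_⟩
  · rcases h.2.1 a ha with h' | h'
    · exact Or.inl h'
    · exact Or.inr ⟨hA a h'.1 h'.2, h'.2⟩
  · exact hA a (h.2.2 ha) (fun b hb => r.sep b (h.1 hb) a ha)

theorem Ext.mono {s : Finset ℕ} {A A' : Set ℕ} {r : Mathias} (h : Ext s A r)
    (hA : A ⊆ A') : Ext s A' r := h.local fun _ ha _ => hA ha

theorem exists_ext (s : Finset ℕ) (A : Set ℕ) (hA : A.Infinite) :
    ∃ r : Mathias, r.stem = s ∧ Ext s A r ∧ r.res = {a ∈ A | ∀ b ∈ s, b < a} := by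
  have hinf : ({a ∈ A | ∀ b ∈ s, b < a} : Set ℕ).Infinite := by
    have h1 : A \ ↑(Finset.range (s.sup id + 1)) ⊆ {a ∈ A | ∀ b ∈ s, b < a} := by
      rintro a ⟨ha, hna⟩
      refine ⟨ha, fun b hb => ?_⟩
      have h2 : b ≤ s.sup id := Finset.le_sup (f := id) hb
      have h3 : ¬ a < s.sup id + 1 := by simpa using hna
      omega
    exact (hA.sdiff (Finset.finite_toSet _)).mono h1
  exact ⟨⟨s, _, hinf, fun a ha b hb => hb.2 a ha⟩, rfl,
    ⟨Finset.Subset.refl _, fun a ha => Or.inl ha, fun a ha => ha.1⟩, rfl⟩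

/-- shrink the reservoir to the elements satisfying `a > k` -/
theorem exists_shrink (p : Mathias) (k : ℕ) :
    ∃ q ≤ p, q.stem = p.stem ∧ q.res = {a ∈ p.res | k < a} := by
  have hinf : ({a ∈ p.res | k < a} : Set ℕ).Infinite := by
    have h1 : p.res \ ↑(Finset.range (k + 1)) ⊆ {a ∈ p.res | k < a} := by
      rintro a ⟨ha, hna⟩
      refine ⟨ha, ?_⟩
      have h3 : ¬ a < k + 1 := by simpa using hna
      omega
    exact (p.inf.sdiff (Finset.finite_toSet _)).mono h1
  exact ⟨⟨p.stem, _, hinf, fun a ha b hb => p.sep a ha b hb.1⟩,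
    ⟨Finset.Subset.refl _, fun a ha => ha.1, fun a ha => Or.inl ha⟩, rfl, rfl⟩

/-- add an element of the reservoir to the stem -/
theorem exists_add (p : Mathias) {n : ℕ} (hn : n ∈ p.res) :
    ∃ q ≤ p, q.stem = insert n p.stem ∧ q.res = {a ∈ p.res | n < a} := by
  obtain ⟨q, hq, h1, h2⟩ := p.exists_shrink n
  refine ⟨⟨insert n p.stem, q.res, q.inf, ?_⟩, ⟨Finset.subset_insert _ _, hq.2.1, ?_⟩, rfl, h2⟩
  · intro a ha b hb
    rw [h2] at hb
    rcases Finset.mem_insert.mp ha with rfl | ha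
    · exact hb.2
    · exact p.sep a ha b hb.1
  · intro a ha
    rcases Finset.mem_insert.mp ha with rfl | ha
    · exact Or.inr hn
    · exact Or.inl ha

section Fusion

theorem fusion (S : ℕ → Finset ℕ → Set ℕ → Prop)
    (her : ∀ n F A A', A' ⊆ A → S n F A → S n F A')
    (ex : ∀ n F A, A.Infinite → ∃ A' ⊆ A, A'.Infinite ∧ S n F A')
    (A : Set ℕ) (hA : A.Infinite) :
    ∃ b : ℕ → ℕ, StrictMono b ∧ (∀ n, b n ∈ A) ∧
      ∀ n, S n ((Finset.range n).image b) {x | ∃ i ≥ n, x = b i} := by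
  classical
  choose! g hg using ex
  -- states
  let nextSet : Set ℕ → Set ℕ := fun A => {x ∈ A | sInf A < x}
  have hnext : ∀ A : Set ℕ, A.Infinite → (nextSet A).Infinite := by
    intro A hA
    have h1 : A \ ↑(Finset.range (sInf A + 1)) ⊆ nextSet A := by
      rintro a ⟨ha, hna⟩
      refine ⟨ha, ?_⟩
      have h3 : ¬ a < sInf A + 1 := by simpa using hna
      omega
    exact (hA.sdiff (Finset.finite_toSet _)).mono h1
  let st : ℕ → Finset ℕ × Set ℕ := fun n => Nat.rec (∅, g 0 ∅ A)
    (fun n x => (insert (sInf x.2) x.1, g (n + 1) (insert (sInf x.2) x.1) (nextSet x.2))) n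
  have st_succ : ∀ n, st (n + 1) = (insert (sInf (st n).2) (st n).1,
      g (n + 1) (insert (sInf (st n).2) (st n).1) (nextSet (st n).2)) := fun n => rfl
  have hinf : ∀ n, (st n).2.Infinite := by
    intro n
    induction n with
    | zero => exact (hg 0 ∅ A hA).2.1
    | succ n ih =>
      rw [st_succ]
      exact (hg (n + 1) _ _ (hnext _ ih)).2.1
  have hS : ∀ n, S n (st n).1 (st n).2 := by
    intro n
    cases n with
    | zero => exact (hg 0 ∅ A hA).2.2
    | succ n =>
      rw [st_succ]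
      exact (hg (n + 1) _ _ (hnext _ (hinf n))).2.2
  have hsub : ∀ n, (st (n + 1)).2 ⊆ nextSet (st n).2 := by
    intro n
    rw [st_succ]
    exact (hg (n + 1) _ _ (hnext _ (hinf n))).1
  have hsubA : ∀ n, (st n).2 ⊆ A := by
    intro n
    induction n with
    | zero => exact (hg 0 ∅ A hA).1
    | succ n ih => exact fun x hx => ih (hsub n hx).1
  let b : ℕ → ℕ := fun n => sInf (st n).2
  have hb : ∀ n, b n ∈ (st n).2 := fun n => Nat.sInf_mem (hinf n).nonempty
  have hbmono : StrictMono b := strictMono_nat_of_lt_succ fun n => (hsub n (hb (n + 1))).2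
  have hanti : ∀ n i, n ≤ i → (st i).2 ⊆ (st n).2 := by
    intro n i hi
    induction hi with
    | refl => exact subset_rfl
    | step _ ih => exact fun x hx => ih (hsub _ hx).1
  have hF : ∀ n, (st n).1 = (Finset.range n).image b := by
    intro n
    induction n with
    | zero => rfl
    | succ n ih =>
      rw [st_succ, Finset.range_add_one, Finset.image_insert, ← ih]
  refine ⟨b, hbmono, fun n => hsubA n (hb n), fun n => ?_⟩
  rw [← hF]
  refine her n _ _ _ ?_ (hS n)
  rintro x ⟨i, hi, rfl⟩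
  exact hanti n i hi (hb i)

theorem finite_simul {ι : Type} (T : Finset ι) (R : ι → Set ℕ → Prop)
    (her : ∀ i A A', A' ⊆ A → R i A → R i A')
    (ex : ∀ i, ∀ A : Set ℕ, A.Infinite → ∃ A' ⊆ A, A'.Infinite ∧ R i A')
    (A : Set ℕ) (hA : A.Infinite) : ∃ A' ⊆ A, A'.Infinite ∧ ∀ i ∈ T, R i A' := by
  classical
  induction T using Finset.induction_on with
  | empty => exact ⟨A, subset_rfl, hA, by simp⟩
  | insert i T _ ih =>
    obtain ⟨A', hA', hinf, h⟩ := ih
    obtain ⟨A'', hA'', hinf', h'⟩ := ex i A' hinf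
    refine ⟨A'', hA''.trans hA', hinf', fun j hj => ?_⟩
    rcases Finset.mem_insert.mp hj with rfl | hj
    · exact h'
    · exact her j _ _ hA'' (h j hj)

end Fusion

section PureDecision

variable (U : Mathias → Prop)

/-- `(s, A)` forces the generic filter to avoid `U` -/
def Neg (s : Finset ℕ) (A : Set ℕ) : Prop := ∀ r, Ext s A r → ¬ U r

/-- `U` is dense below `(s, A)` -/
def Pos (s : Finset ℕ) (A : Set ℕ) : Prop := ∀ r, Ext s A r → ∃ r' ≤ r, U r'

/-- `(s, A)` decides whether the generic filter meets `U` -/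
def Dec (s : Finset ℕ) (A : Set ℕ) : Prop := Pos U s A ∨ Neg U s A

/-- no infinite subset of `A` decides for the stem `s` -/
def Rej (s : Finset ℕ) (A : Set ℕ) : Prop := ∀ A' ⊆ A, A'.Infinite → ¬ Dec U s A'

variable {U}

theorem Neg.her {s : Finset ℕ} {A A' : Set ℕ} (hA : A' ⊆ A) (h : Neg U s A) : Neg U s A' :=
  fun r hr => h r (hr.mono hA)

theorem Pos.her {s : Finset ℕ} {A A' : Set ℕ} (hA : A' ⊆ A) (h : Pos U s A) : Pos U s A' :=
  fun r hr => h r (hr.mono hA)

theorem Dec.her {s : Finset ℕ} {A A' : Set ℕ} (hA : A' ⊆ A) (h : Dec U s A) : Dec U s A' :=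
  h.imp (Pos.her hA) (Neg.her hA)

theorem Rej.her {s : Finset ℕ} {A A' : Set ℕ} (hA : A' ⊆ A) (h : Rej U s A) : Rej U s A' :=
  fun B hB => h B (hB.trans hA)

theorem Dec.local {s : Finset ℕ} {A A' : Set ℕ} (h : Dec U s A')
    (hA : ∀ a ∈ A, (∀ b ∈ s, b < a) → a ∈ A') : Dec U s A :=
  h.imp (fun h r hr => h r (hr.local hA)) (fun h r hr => h r (hr.local hA))

theorem dec_or_rej (s : Finset ℕ) (A : Set ℕ) (hA : A.Infinite) :
    ∃ A' ⊆ A, A'.Infinite ∧ (Dec U s A' ∨ Rej U s A') := by
  by_cases h : ∃ A' ⊆ A, A'.Infinite ∧ Dec U s A'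
  · obtain ⟨A', h1, h2, h3⟩ := h
    exact ⟨A', h1, h2, Or.inl h3⟩
  · exact ⟨A, subset_rfl, hA, Or.inr fun A' h1 h2 h3 => h ⟨A', h1, h2, h3⟩⟩

/-- one more element -/
theorem ext_insert {s : Finset ℕ} {T B : Set ℕ} (hTB : T ⊆ B)
    {r : Mathias} (hr : Ext s T r) : ∃ n ∈ T, ∃ r' ≤ r, Ext (insert n s) B r' := by
  classical
  by_cases h : (r.stem \ s).Nonempty
  · -- minimal new element
    set n := (r.stem \ s).min' h with hn
    have hmem : n ∈ r.stem \ s := Finset.min'_mem _ _
    have hnr : n ∈ r.stem := (Finset.mem_sdiff.mp hmem).1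
    have hns : n ∉ s := (Finset.mem_sdiff.mp hmem).2
    have hnT : n ∈ T := by
      rcases hr.2.1 n hnr with h' | h'
      · exact absurd h' hns
      · exact h'.1
    refine ⟨n, hnT, r, le_rfl, ?_, ?_, hr.2.2.trans hTB⟩
    · intro a ha
      rcases Finset.mem_insert.mp ha with rfl | ha
      · exact hnr
      · exact hr.1 ha
    · intro a ha
      by_cases has : a ∈ s
      · exact Or.inl (Finset.mem_insert_of_mem has)
      · by_cases han : a = n
        · exact Or.inl (by rw [han]; exact Finset.mem_insert_self _ _)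
        · right
          rcases hr.2.1 a ha with h' | h'
          · exact absurd h' has
          · refine ⟨hTB h'.1, fun b hb => ?_⟩
            rcases Finset.mem_insert.mp hb with rfl | hb
            · have hle : n ≤ a := Finset.min'_le _ _ (Finset.mem_sdiff.mpr ⟨ha, has⟩)
              exact lt_of_le_of_ne hle (Ne.symm han)
            · exact h'.2 b hb
  · have hstem : r.stem = s := by
      rw [Finset.not_nonempty_iff_eq_empty, Finset.sdiff_eq_empty_iff_subset] at h
      exact Finset.Subset.antisymm h hr.1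
    obtain ⟨n, hn⟩ := r.inf.nonempty
    obtain ⟨q, hq, h1, h2⟩ := r.exists_add hn
    refine ⟨n, hr.2.2 hn, q, hq, ?_, ?_, ?_⟩
    · rw [h1, hstem]
    · intro a ha
      rw [h1, hstem] at ha
      exact Or.inl ha
    · rw [h2]
      exact fun a ha => hTB (hr.2.2 ha.1)

theorem rej_finite (hU : ∀ p q, q ≤ p → U p → U q) {s : Finset ℕ} {B : Set ℕ}
    (h : Rej U s B) :
    ({a ∈ B | (∀ b ∈ s, b < a) ∧ Dec U (insert a s) B} : Set ℕ).Finite := by
  by_contra hinf
  have hinf : ({a ∈ B | (∀ b ∈ s, b < a) ∧ Dec U (insert a s) B} : Set ℕ).Infinite := hinf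
  have hun : ({a ∈ B | (∀ b ∈ s, b < a) ∧ Dec U (insert a s) B} : Set ℕ) =
      {a ∈ B | (∀ b ∈ s, b < a) ∧ Pos U (insert a s) B} ∪
      {a ∈ B | (∀ b ∈ s, b < a) ∧ Neg U (insert a s) B} := by
    ext a
    simp only [Dec, Set.mem_union, Set.mem_ofPred_eq]
    tauto
  rw [hun, Set.infinite_union] at hinf
  rcases hinf with hinf | hinf
  · refine h _ (fun a ha => ha.1) hinf (Or.inl fun r hr => ?_)
    obtain ⟨n, hn, r', hr', he⟩ := ext_insert (B := B) (fun a ha => ha.1) hr
    obtain ⟨r'', h1, h2⟩ := hn.2.2 r' he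
    exact ⟨r'', h1.trans hr', h2⟩
  · refine h _ (fun a ha => ha.1) hinf (Or.inr fun r hr hUr => ?_)
    obtain ⟨n, hn, r', hr', he⟩ := ext_insert (B := B) (fun a ha => ha.1) hr
    exact hn.2.2 r' he (hU r r' hr' hUr)

/-- **Pure decision.** -/
theorem pure_decision (hU : ∀ p q, q ≤ p → U p → U q) (s : Finset ℕ) (A : Set ℕ)
    (hA : A.Infinite) : ∃ B ⊆ A, B.Infinite ∧ Dec U s B := by
  classical
  by_contra hcon
  have hrej : Rej U s A := fun A' h1 h2 h3 => hcon ⟨A', h1, h2, h3⟩
  -- make the reservoir lie above `s`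
  obtain ⟨p₀, hp1, hp2, hp3⟩ := exists_ext s A hA
  have hA₁ : p₀.res ⊆ A := hp2.2.2
  have hA₁s : ∀ a ∈ p₀.res, ∀ b ∈ s, b < a := by
    intro a ha b hb
    rw [hp3] at ha
    exact ha.2 b hb
  -- first fusion
  obtain ⟨b, hbm, hbA, hb⟩ := fusion
    (fun _ F A' => ∀ t ∈ F.powerset, Dec U (s ∪ t) A' ∨ Rej U (s ∪ t) A')
    (fun n F A A' hAA' h t ht => (h t ht).imp (Dec.her hAA') (Rej.her hAA'))
    (fun n F A hA => finite_simul F.powerset (fun t A' => Dec U (s ∪ t) A' ∨ Rej U (s ∪ t) A')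
      (fun t A A' hAA' h => h.imp (Dec.her hAA') (Rej.her hAA'))
      (fun t A hA => dec_or_rej (s ∪ t) A hA) A hA) p₀.res p₀.inf
  set B : Set ℕ := Set.range b with hB
  have hBinf : B.Infinite := Set.infinite_range_of_injective hbm.injective
  have hBs : ∀ a ∈ B, ∀ c ∈ s, c < a := by
    rintro _ ⟨i, rfl⟩ c hc
    exact hA₁s _ (hbA i) c hc
  have hBA : B ⊆ A := by
    rintro _ ⟨i, rfl⟩
    exact hA₁ (hbA i)
  have hdich : ∀ t : Finset ℕ, ↑t ⊆ B → Dec U (s ∪ t) B ∨ Rej U (s ∪ t) B := by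
    intro t ht
    obtain ⟨n, hn1, hn2⟩ : ∃ n, t ⊆ (Finset.range n).image b ∧
        ∀ i, (∀ c ∈ s ∪ t, c < b i) → n ≤ i := by
      by_cases hne : t.Nonempty
      · obtain ⟨n', hn'⟩ := ht (Finset.max'_mem t hne)
        refine ⟨n' + 1, fun a ha => ?_, fun i hi => ?_⟩
        · obtain ⟨j, rfl⟩ := ht ha
          have : b j ≤ b n' := by rw [hn']; exact Finset.le_max' t _ ha
          have hj : j ≤ n' := hbm.le_iff_le.mp this
          exact Finset.mem_image.mpr ⟨j, Finset.mem_range.mpr (by omega), rfl⟩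
        · have : b n' < b i := hi _ (Finset.mem_union_right _ (by rw [hn']; exact Finset.max'_mem t hne))
          exact hbm.lt_iff_lt.mp this
      · rw [Finset.not_nonempty_iff_eq_empty] at hne
        subst hne
        exact ⟨0, Finset.empty_subset _, fun i _ => Nat.zero_le i⟩
    have hloc : ∀ a ∈ B, (∀ c ∈ s ∪ t, c < a) → a ∈ {x | ∃ i ≥ n, x = b i} := by
      rintro _ ⟨i, rfl⟩ hi
      exact ⟨i, hn2 i hi, rfl⟩
    rcases hb n t (Finset.mem_powerset.mpr hn1) with h | h
    · exact Or.inl (h.local hloc)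
    · refine Or.inr fun A' hA' hinf hdec => ?_
      refine h (A' ∩ {x | ∃ i ≥ n, x = b i}) Set.inter_subset_right ?_
        (hdec.her Set.inter_subset_left)
      have hsub : A' \ ↑((Finset.range n).image b) ⊆ A' ∩ {x | ∃ i ≥ n, x = b i} := by
        rintro a ⟨ha, hna⟩
        obtain ⟨i, rfl⟩ := hA' ha
        refine ⟨ha, i, ?_, rfl⟩
        by_contra hlt
        push Not at hlt
        exact hna (Finset.mem_coe.mpr (Finset.mem_image.mpr ⟨i, Finset.mem_range.mpr hlt, rfl⟩))
      exact (hinf.sdiff (Finset.finite_toSet _)).mono hsub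
  have hrejB : Rej U s B := hrej.her hBA
  -- second fusion
  obtain ⟨c, hcm, hcB, hc⟩ := fusion
    (fun _ F A' => ↑F ⊆ B → (∀ t ∈ F.powerset, Rej U (s ∪ t) B) → ∀ t ∈ F.powerset, ∀ a ∈ A',
      a ∈ B → (∀ x ∈ s ∪ t, x < a) → Rej U (insert a (s ∪ t)) B)
    (fun n F A A' hAA' h h1 h2 t ht a ha => h h1 h2 t ht a (hAA' ha))
    (fun n F A hA => by
      by_cases h1 : ↑F ⊆ B
      swap
      · exact ⟨A, subset_rfl, hA, fun h => absurd h h1⟩
      by_cases h2 : ∀ t ∈ F.powerset, Rej U (s ∪ t) B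
      swap
      · exact ⟨A, subset_rfl, hA, fun _ h => absurd h h2⟩
      let Bd : Set ℕ := ⋃ t ∈ F.powerset,
        {a ∈ B | (∀ x ∈ s ∪ t, x < a) ∧ Dec U (insert a (s ∪ t)) B}
      have hBd : Bd.Finite := Set.Finite.biUnion (Finset.finite_toSet F.powerset)
        (fun t ht => rej_finite hU (h2 t ht))
      refine ⟨A \ Bd, Set.sdiff_subset, hA.sdiff hBd, fun _ _ t ht a ha haB hx => ?_⟩
      have htB : ↑t ⊆ B := fun y hy => h1 (Finset.mem_powerset.mp ht hy)
      have hins : (↑(insert a t) : Set ℕ) ⊆ B := by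
        intro y hy
        rcases Finset.mem_insert.mp (Finset.mem_coe.mp hy) with rfl | hy
        · exact haB
        · exact htB hy
      have heq : s ∪ insert a t = insert a (s ∪ t) := by
        ext y; simp only [Finset.mem_union, Finset.mem_insert]; tauto
      rcases hdich (insert a t) hins with h | h
      · rw [heq] at h
        exact (ha.2 (Set.mem_iUnion₂.mpr ⟨t, ht, haB, hx, h⟩)).elim
      · rwa [heq] at h) B hBinf
  have hall : ∀ n, ∀ t ⊆ (Finset.range n).image c, Rej U (s ∪ t) B := by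
    intro n
    induction n with
    | zero =>
      intro t ht
      have : t = ∅ := by simpa using ht
      subst this
      simpa using hrejB
    | succ n ih =>
      intro t ht
      by_cases hmem : c n ∈ t
      · have ht' : t.erase (c n) ⊆ (Finset.range n).image c := by
          intro a ha
          obtain ⟨h1, h2⟩ := Finset.mem_erase.mp ha
          obtain ⟨i, hi, rfl⟩ := Finset.mem_image.mp (ht h2)
          rcases Nat.lt_succ_iff_lt_or_eq.mp (Finset.mem_range.mp hi) with h3 | h3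
          · exact Finset.mem_image.mpr ⟨i, Finset.mem_range.mpr h3, rfl⟩
          · subst h3; exact absurd rfl h1
        have hsubB : ↑((Finset.range n).image c) ⊆ B := by
          intro y hy
          obtain ⟨i, _, rfl⟩ := Finset.mem_image.mp (Finset.mem_coe.mp hy)
          exact hcB i
        have h := hc n hsubB (fun t ht => ih t (Finset.mem_powerset.mp ht))
          (t.erase (c n)) (Finset.mem_powerset.mpr ht') (c n) ⟨n, le_rfl, rfl⟩ (hcB n) (by
            intro x hx
            rcases Finset.mem_union.mp hx with h | h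
            · exact hBs _ (hcB n) x h
            · obtain ⟨i, hi, rfl⟩ := Finset.mem_image.mp (ht' h)
              exact hcm (Finset.mem_range.mp hi))
        have heq : insert (c n) (s ∪ t.erase (c n)) = s ∪ t := by
          ext y
          simp only [Finset.mem_insert, Finset.mem_union, Finset.mem_erase]
          constructor
          · rintro (rfl | h | h)
            · exact Or.inr hmem
            · exact Or.inl h
            · exact Or.inr h.2
          · rintro (h | h)
            · exact Or.inr (Or.inl h)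
            · by_cases hy : y = c n
              · exact Or.inl hy
              · exact Or.inr (Or.inr ⟨hy, h⟩)
        rwa [heq] at h
      · refine ih t fun a ha => ?_
        obtain ⟨i, hi, rfl⟩ := Finset.mem_image.mp (ht ha)
        rcases Nat.lt_succ_iff_lt_or_eq.mp (Finset.mem_range.mp hi) with h3 | h3
        · exact Finset.mem_image.mpr ⟨i, Finset.mem_range.mpr h3, rfl⟩
        · subst h3; exact absurd ha hmem
  -- conclusion
  set C : Set ℕ := Set.range c with hC
  have hCinf : C.Infinite := Set.infinite_range_of_injective hcm.injective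
  have hCB : C ⊆ B := by rintro _ ⟨i, rfl⟩; exact hcB i
  have hnotneg : ¬ Neg U s C := fun h => hrejB C hCB hCinf (Or.inr h)
  simp only [Neg, not_forall, not_not] at hnotneg
  obtain ⟨r, hr, hUr⟩ := hnotneg
  have htC : r.stem \ s ⊆ r.stem \ s := Finset.Subset.refl _
  obtain ⟨n, hn⟩ : ∃ n, r.stem \ s ⊆ (Finset.range n).image c := by
    have hsub : ∀ a ∈ r.stem \ s, ∃ i, c i = a := by
      intro a ha
      rcases hr.2.1 a (Finset.mem_sdiff.mp ha).1 with h | h
      · exact absurd h (Finset.mem_sdiff.mp ha).2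
      · exact h.1
    choose! idx hidx using hsub
    refine ⟨((r.stem \ s).image idx).sup id + 1, fun a ha => ?_⟩
    refine Finset.mem_image.mpr ⟨idx a, Finset.mem_range.mpr ?_, hidx a ha⟩
    have : idx a ≤ ((r.stem \ s).image idx).sup id :=
      Finset.le_sup (f := id) (Finset.mem_image_of_mem idx ha)
    omega
  have hfin := hall n (r.stem \ s) hn r.res (hr.2.2.trans hCB) r.inf
  have hst : s ∪ (r.stem \ s) = r.stem := Finset.union_sdiff_of_subset hr.1
  rw [hst] at hfin
  refine hfin (Or.inl fun r' hr' => ⟨r', le_rfl, hU r r' ?_ hUr⟩)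
  exact ⟨hr'.1, hr'.2.2, fun a ha => (hr'.2.1 a ha).imp id (fun h => h.1)⟩

end PureDecision

/-- **Mathias forcing adds no half-Cohen real.** -/
theorem not_addsHalfCohen : ¬ AddsHalfCohen Mathias := by
  classical
  rintro ⟨c, p, hc⟩
  have hU : ∀ n j, ∀ p q : Mathias, q ≤ p → c.val n j p → c.val n j q := fun n j => c.mono n j
  obtain ⟨b, hbm, hbA, hb⟩ := fusion
    (fun n F A' => ∃ j, ∀ t ∈ F.powerset, Neg (c.val n j) (p.stem ∪ t) A')
    (fun n F A A' hAA' ⟨j, h⟩ => ⟨j, fun t ht => (h t ht).her hAA'⟩)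
    (fun n F A hA => by
      obtain ⟨A', hA', hinf, h⟩ := finite_simul
        (F.powerset ×ˢ Finset.range (2 ^ F.card + 1))
        (fun x A' => Dec (c.val n x.2) (p.stem ∪ x.1) A')
        (fun x A A' hAA' h => h.her hAA')
        (fun x A hA => pure_decision (hU n x.2) (p.stem ∪ x.1) A hA) A hA
      refine ⟨A', hA', hinf, ?_⟩
      by_contra hcon
      push Not at hcon
      choose τ hτ1 hτ2 using hcon
      have hcard : F.powerset.card < (Finset.range (2 ^ F.card + 1)).card := by
        rw [Finset.card_powerset, Finset.card_range]; exact Nat.lt_succ_self _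
      obtain ⟨i, hi, j, hj, hij, heq⟩ := Finset.exists_ne_map_eq_of_card_lt_of_maps_to hcard
        (f := τ) (fun j _ => hτ1 j)
      have hpos : ∀ j ∈ Finset.range (2 ^ F.card + 1), Pos (c.val n j) (p.stem ∪ τ j) A' := by
        intro j hj
        rcases h (τ j, j) (Finset.mem_product.mpr ⟨hτ1 j, hj⟩) with h | h
        · exact h
        · exact absurd h (hτ2 j)
      have h1 := hpos i hi
      have h2 := hpos j hj
      rw [← heq] at h2
      obtain ⟨r, -, hr, -⟩ := exists_ext (p.stem ∪ τ i) A' hinf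
      obtain ⟨r₁, hr₁, hv₁⟩ := h1 r hr
      obtain ⟨r₂, hr₂, hv₂⟩ := h2 r₁ (hr.le hr₁)
      exact hij (c.func n i j r₂ (c.mono n i _ _ hr₂ hv₁) hv₂)) p.res p.inf
  choose f hf using hb
  have hBinf : (Set.range b).Infinite := Set.infinite_range_of_injective hbm.injective
  let q : Mathias := ⟨p.stem, Set.range b, hBinf, by
    rintro a ha _ ⟨i, rfl⟩
    exact p.sep a ha _ (hbA i)⟩
  have hqp : q ≤ p := ⟨Finset.Subset.refl _, by rintro _ ⟨i, rfl⟩; exact hbA i,
    fun a ha => Or.inl ha⟩
  obtain ⟨r, hr, n, -, hval⟩ := hc f 0 q hqp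
  -- shrink `r`
  obtain ⟨r', hr', hst, hres⟩ := r.exists_shrink (b n)
  have ht : r.stem.filter (fun a => a ∈ (Finset.range n).image b) ∈
      ((Finset.range n).image b).powerset :=
    Finset.mem_powerset.mpr fun a ha => (Finset.mem_filter.mp ha).2
  refine hf n _ ht r' ⟨?_, ?_, ?_⟩ (c.mono n _ _ _ hr' hval)
  · rw [hst]
    intro a ha
    rcases Finset.mem_union.mp ha with h | h
    · exact hr.1 h
    · exact (Finset.mem_filter.mp h).1
  · intro a ha
    rw [hst] at ha
    rcases hr.2.2 a ha with h | h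
    · exact Or.inl (Finset.mem_union_left _ h)
    · obtain ⟨i, rfl⟩ := h
      by_cases hi : i < n
      · left
        refine Finset.mem_union_right _ (Finset.mem_filter.mpr ⟨ha, ?_⟩)
        exact Finset.mem_image.mpr ⟨i, Finset.mem_range.mpr hi, rfl⟩
      · right
        push Not at hi
        refine ⟨⟨i, hi, rfl⟩, fun x hx => ?_⟩
        rcases Finset.mem_union.mp hx with h | h
        · exact p.sep x h _ (hbA i)
        · obtain ⟨j, hj, rfl⟩ := Finset.mem_image.mp (Finset.mem_filter.mp h).2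
          exact hbm (lt_of_lt_of_le (Finset.mem_range.mp hj) hi)
  · rw [hres]
    rintro a ⟨ha, hlt⟩
    obtain ⟨i, rfl⟩ := hr.2.1 ha
    exact ⟨i, (hbm.lt_iff_lt.mp hlt).le, rfl⟩

theorem exists_card (p : Mathias) (k : ℕ) : ∃ r ≤ p, k ≤ r.stem.card := by
  induction k with
  | zero => exact ⟨p, le_rfl, Nat.zero_le _⟩
  | succ k ih =>
    obtain ⟨r, hr, h⟩ := ih
    obtain ⟨n, hn⟩ := r.inf.nonempty
    obtain ⟨q, hq, h1, -⟩ := r.exists_add hn
    refine ⟨q, hq.trans hr, ?_⟩
    have hnot : n ∉ r.stem := fun h' => lt_irrefl n (r.sep n h' n hn)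
    rw [h1, Finset.card_insert_of_notMem hnot]
    omega

/-- The name `m ≤ d(n)` where `d` is the increasing enumeration of the Mathias real: the Mathias
real has at most `n` elements below `m`. -/
def bound : BoundName Mathias where
  D n m p := ∀ q ≤ p, (q.stem.filter (· < m)).card ≤ n
  regular n m := by
    refine ⟨fun p q hq h r hr => h r (hr.trans hq), fun p h q hq => ?_⟩
    obtain ⟨r, hr, h'⟩ := h q hq
    exact (Finset.card_le_card (Finset.filter_subset_filter _ hr.1)).trans (h' r le_rfl)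
  zero n p q _ := by simp
  bdd n p := by
    obtain ⟨r, hr, hcard⟩ := p.exists_card (n + 1)
    refine ⟨r, hr, r.stem.sup id, fun m s hs hD => ?_⟩
    by_contra hlt
    push Not at hlt
    have hsub : r.stem ⊆ s.stem.filter (· < m) := by
      intro a ha
      refine Finset.mem_filter.mpr ⟨hs.1 ha, ?_⟩
      have : a ≤ r.stem.sup id := Finset.le_sup (f := id) ha
      omega
    have h1 := Finset.card_le_card hsub
    have h2 := hD s le_rfl
    omega

/-- The Mathias real is dominating. -/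
theorem bound_dominating (y : ℕ → ℕ) (p : Mathias) :
    ∃ r ≤ p, ∃ N, ∀ n ≥ N, bound.D n (y n) r := by
  classical
  obtain ⟨b, hbm, hbA, hb⟩ := fusion
    (fun i _ A' => ∀ a ∈ A', ∀ n ≤ p.stem.card + i, y n ≤ a)
    (fun n F A A' hAA' h a ha => h a (hAA' ha))
    (fun i F A hA => by
      let M := (Finset.range (p.stem.card + i + 1)).sup y
      refine ⟨A \ ↑(Finset.range M), Set.sdiff_subset, hA.sdiff (Finset.finite_toSet _), ?_⟩
      rintro a ⟨-, hna⟩ n hn
      have h1 : y n ≤ M := Finset.le_sup (Finset.mem_range.mpr (by omega))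
      have h2 : ¬ a < M := by simpa using hna
      omega) p.res p.inf
  have hBinf : (Set.range b).Infinite := Set.infinite_range_of_injective hbm.injective
  refine ⟨⟨p.stem, Set.range b, hBinf, by
    rintro a ha _ ⟨i, rfl⟩
    exact p.sep a ha _ (hbA i)⟩, ⟨Finset.Subset.refl _, by rintro _ ⟨i, rfl⟩; exact hbA i,
    fun a ha => Or.inl ha⟩, p.stem.card, fun n hn q hq => ?_⟩
  have hsub : q.stem.filter (· < y n) ⊆
      p.stem ∪ (Finset.range (n - p.stem.card)).image b := by
    intro a ha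
    obtain ⟨ha1, ha2⟩ := Finset.mem_filter.mp ha
    rcases hq.2.2 a ha1 with h | h
    · exact Finset.mem_union_left _ h
    · obtain ⟨i, rfl⟩ := h
      refine Finset.mem_union_right _ (Finset.mem_image.mpr ⟨i, ?_, rfl⟩)
      rw [Finset.mem_range]
      by_contra hge
      push Not at hge
      have := hb i (b i) ⟨i, le_rfl, rfl⟩ n (by omega)
      omega
  calc (q.stem.filter (· < y n)).card ≤ (p.stem ∪ (Finset.range (n - p.stem.card)).image b).card :=
        Finset.card_le_card hsub
    _ ≤ p.stem.card + ((Finset.range (n - p.stem.card)).image b).card := Finset.card_union_le _ _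
    _ ≤ p.stem.card + (n - p.stem.card) := by
        have := Finset.card_image_le (s := Finset.range (n - p.stem.card)) (f := b)
        rw [Finset.card_range] at this
        omega
    _ = n := by omega

end Mathias

end Pool.Agent.HalfCohen
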